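import Mathlib
import Pool.Agent.H391R2.R1.Fin
import Pool.Agent.H96S.WP.Diag
import Pool.Agent.H96S.WP.Fld

/-!
# Primitive number fields of diagonal type

For every finite nonabelian simple group `T` and every large `n` there are number fields `E` of
degree `|T| ^ (n - 1)` without proper subfields, totally real, tamely ramified, with any given
finite set of primes splitting completely, whose Galois closure `L` has group `T ≀ S_n` over `ℚ`
and group `T × S_n` over `E` (the diagonal action of `T ≀ S_n`). In particular `T` is the Galois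
group of a Galois extension of such a primitive field `E`.
-/

set_option autoImplicit false

open NumberField Pool.Agent.H391R2

namespace Pool.Agent.Results.MP_dadaab_nt.DiagonalType

/-- `L` is totally real, tamely ramified over `ℚ`, and all primes of `S` split completely. -/
def Local (L : Type) [Field L] [NumberField L] (S : Finset ℕ) : Prop :=
  IsTotallyReal L ∧
  (∀ p ∈ S, p.Prime →
    ((Ideal.span {(p : ℤ)}).primesOver (𝓞 L)).ncard = Module.finrank ℚ L) ∧
  ∀ p : ℕ, p.Prime → ∀ P : Ideal (𝓞 L), P.IsPrime → (p : 𝓞 L) ∈ P → ¬ p ∣ P.ramificationIdx ℤ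

/-- `E` has no subfields besides `K` and `E`, and is different from `K`. -/
def NoProperSubfields {K L : Type} [Field K] [Field L] [Algebra K L]
    (E : IntermediateField K L) : Prop :=
  E ≠ ⊥ ∧ ∀ F : IntermediateField K L, F ≤ E → F = ⊥ ∨ F = E

/-- `L` is the Galois closure of `E` over `K`. -/
def IsClosure {K L : Type} [Field K] [Field L] [Algebra K L]
    (E : IntermediateField K L) : Prop :=
  ∀ F : IntermediateField K L, E ≤ F → Normal K F → F = ⊤

/-- The group `Q` is the Galois group of a Galois extension of `E` inside `L`. -/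
def IsGaloisGroupOver {K L : Type} [Field K] [Field L] [Algebra K L]
    (E : IntermediateField K L) (Q : Type) [Group Q] : Prop :=
  ∃ F : IntermediateField E L, IsGalois E F ∧ Nonempty (Q ≃* (F ≃ₐ[E] F))

end Pool.Agent.Results.MP_dadaab_nt.DiagonalType

open Pool.Agent.Results.MP_dadaab_nt.DiagonalType Pool.Agent.H96S.WP in
theorem Pool.Agent.Results.MP_dadaab_nt.DiagonalType.result :
    ∀ (T : Type) [Group T] [Finite T] [IsSimpleGroup T], (∃ a b : T, a * b ≠ b * a) →
      ∃ n₀ : ℕ, ∀ n ≥ n₀, ∀ S : Finset ℕ,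
      ∃ (L : Type) (_ : Field L) (_ : NumberField L) (_ : IsGalois ℚ L)
        (e : Wr T n ≃* (L ≃ₐ[ℚ] L)) (E : IntermediateField ℚ L), Local L S ∧
        (∀ x : L, x ∈ E ↔ ∀ w : Wr T n, (∀ i j, w.left i = w.left j) → e w x = x) ∧
        Module.finrank ℚ E = Nat.card T ^ (n - 1) ∧ NoProperSubfields E ∧ IsClosure E ∧
        Nonempty ((T × Equiv.Perm (Fin n)) ≃* (L ≃ₐ[E] L)) ∧ IsGaloisGroupOver E T := by
  intro T _ _ _ hT
  obtain ⟨n₀, hn₀⟩ := R1.wreath_local T
  refine ⟨n₀, fun n hn S => ?_⟩
  have h3 := (hn₀ n hn).1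
  have hpos : 0 < n := by omega
  obtain ⟨L, i1, i2, i3, ⟨e⟩, h1, h2, h4⟩ := (hn₀ n hn).2 S
  have hco := coatom_diagSub (n := n) hT (by omega)
  refine ⟨L, i1, i2, i3, e, fld e (diagSub T n), ⟨h1, h2, h4⟩, ?_, ?_, ⟨?_, ?_⟩, ?_, ?_, ?_⟩
  · intro x
    rw [mem_fld]
    exact Iff.rfl
  · rw [finrank_fld, index_diagSub hpos]
  · intro h
    have h5 : fld e (diagSub T n) ≤ fld e (⊤ : Subgroup (Wr T n)) := by
      rw [h]; exact bot_le
    rw [fld_le_iff] at h5
    exact hco.1 (top_le_iff.1 h5)
  · intro F hF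
    obtain ⟨Y, hY, rfl⟩ := exists_of_le_fld e _ F hF
    rcases eq_or_lt_of_le hY with h | h
    · right; rw [h]
    · left
      rw [hco.2 Y h, fld_top]
  · intro F hF hN
    exact closure_fld e _ (fun N hN hle => core_diagSub hT h3 N hN hle) F hF
  · exact ⟨(diagEquiv T n hpos).symm.trans (galEquiv e (diagSub T n))⟩
  · obtain ⟨F, _, hF1, hF2⟩ := quotient_fld e (diagSub T n)
      ((MonoidHom.fst T (Equiv.Perm (Fin n))).comp (diagEquiv T n hpos).toMonoidHom)
      (Prod.fst_surjective.comp (diagEquiv T n hpos).surjective)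
    exact ⟨F, hF1, hF2⟩
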