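import Pool.Agent.Q247.IG.Wr

/-!
# Normal and subnormal subgroups of Galois groups

`NormalIn k H`: the finite group `H` is isomorphic to a *normal* subgroup of the Galois group of a
Galois extension `L / k`, finite or infinite; equivalently there is a Galois extension `L / k` and an
intermediate field `F`, Galois over `k` when `L / k` is finite, with `Gal(L / F) ≅ H`.
`NormalInFinite k H`: the same with `L / k` finite.
`SubnormalIn k H`: `H` is isomorphic to a normal subgroup of a normal subgroup of the Galois group of
a finite Galois extension of `k`.

The theorem says that the inverse Galois problem over any field is equivalent to its version for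
normal subgroups, with an explicit rigid finite group `H` for each `G`: EVERY group which contains
`H` as a normal subgroup has the quotient `G`.  For subgroups which are normal in a normal subgroup
the statement over `ℚ` is proved for every finite group.
-/

set_option autoImplicit false

open Nfff32c05 Pool.Agent.Q247.IG

namespace Pool.Agent.Results.MP_dadaab_nt.NormalSubgroups

theorem result :
    -- for every finite group `G` there is a finite group `H` such that every group with a normal
    -- subgroup isomorphic to `H` surjects onto `G`, and over every field `G` is realizable as soon
    -- as `H` is a normal subgroup of a Galois group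
    (∀ (G : Type) [Group G] [Finite G], ∃ (H : Type) (_ : Group H), Finite H ∧
      (∀ (X : Type) [Group X] (N : Subgroup X), N.Normal → Nonempty (H ≃* N) →
        ∃ f : X →* G, Function.Surjective f) ∧
      (∀ (k : Type) [Field k], NormalIn k H → IsRealizable k G)) ∧
    -- the inverse Galois problem over `k` is the same as the problem for normal subgroups
    (∀ (k : Type) [Field k],
      ((∀ (G : Type) [Group G] [Finite G], IsRealizable k G) ↔
        ∀ (H : Type) [Group H] [Finite H], NormalIn k H) ∧
      ((∀ (G : Type) [Group G] [Finite G], IsRealizable k G) ↔
        ∀ (H : Type) [Group H] [Finite H], NormalInFinite k H)) ∧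
    -- unconditionally, every finite group is a normal subgroup of a normal subgroup of a finite
    -- Galois group over `ℚ`
    (∀ (H : Type) [Group H] [Finite H], SubnormalIn ℚ H) := by
  refine ⟨fun G _ _ => real_of_normal G, fun k _ => ?_, fun H _ _ => subnormal_rat H⟩
  have h1 : (∀ (G : Type) [Group G] [Finite G], IsRealizable k G) →
      ∀ (H : Type) [Group H] [Finite H], NormalInFinite k H :=
    fun h H _ _ => finite_of_real k H (h H)
  have h2 : (∀ (H : Type) [Group H] [Finite H], NormalInFinite k H) →
      ∀ (H : Type) [Group H] [Finite H], NormalIn k H := by
    intro h H _ _
    obtain ⟨L, i1, i2, i3, _, N, hN, e⟩ := h H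
    exact ⟨L, i1, i2, i3, N, hN, e⟩
  have h3 : (∀ (H : Type) [Group H] [Finite H], NormalIn k H) →
      ∀ (G : Type) [Group G] [Finite G], IsRealizable k G := by
    intro h G _ _
    obtain ⟨H, iH, hfin, _, hk⟩ := real_of_normal G
    exact hk k (h H)
  exact ⟨⟨fun h => h2 (h1 h), h3⟩, ⟨h1, fun h => h3 (h2 h)⟩⟩

end Pool.Agent.Results.MP_dadaab_nt.NormalSubgroups
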