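import Mathlib
import Pool.Agent.H391R2.R1.Fin
import Pool.Agent.H96S.WP.Grp
import Pool.Agent.H96S.WP.Fld

/-!
# Number fields without proper subfields whose Galois group is `G ≀ S_n` in product action

Let `G` be a finite group with a maximal subgroup `M` which is not normal. For every large `n`
there is a totally real, tamely ramified Galois extension `L` of `ℚ` with group `G ≀ S_n` in which
any given finite set of primes splits completely, such that the fixed field `E` of `M ≀ S_n`, of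
degree `[G : M] ^ n`, has no subfields besides `ℚ` and `E`. If `M` has trivial core, then `L` is
the Galois closure of `E`: the Galois group is the primitive group `G ≀ S_n` in its product action
on `(G / M) ^ n`. More generally all subfields of the fixed field of `H ≀ S_n` are found when the
interval `[H, G]` contains no normal pairs.
-/

set_option autoImplicit false

open NumberField Pool.Agent.H391R2

namespace Pool.Agent.Results.MP_dadaab_nt.PrimitiveProductAction

/-- `(w₁, …, w_n; σ) ∈ G ≀ S_n` with all `w_i` in `M`. -/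
def Coord {G : Type} [Group G] (n : ℕ) (M : Subgroup G) (w : Wr G n) : Prop :=
  ∀ i, w.left i ∈ M

/-- The elements of `L` which are fixed by the automorphisms `e w` with `w ∈ M ≀ S_n`. -/
def IsFixedField {G : Type} [Group G] {n : ℕ} {L : Type} [Field L] [NumberField L]
    (e : Wr G n ≃* (L ≃ₐ[ℚ] L)) (M : Subgroup G) (E : IntermediateField ℚ L) : Prop :=
  ∀ x : L, x ∈ E ↔ ∀ w : Wr G n, Coord n M w → e w x = x

/-- `L` is totally real, tamely ramified over `ℚ`, and all primes of `S` split completely. -/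
def Local (L : Type) [Field L] [NumberField L] (S : Finset ℕ) : Prop :=
  IsTotallyReal L ∧
  (∀ p ∈ S, p.Prime →
    ((Ideal.span {(p : ℤ)}).primesOver (𝓞 L)).ncard = Module.finrank ℚ L) ∧
  ∀ p : ℕ, p.Prime → ∀ P : Ideal (𝓞 L), P.IsPrime → (p : 𝓞 L) ∈ P → ¬ p ∣ P.ramificationIdx ℤ

/-- `E` has no subfields besides `K` and `E`, and is different from `K`. -/
def NoProperSubfields {K L : Type} [Field K] [Field L] [Algebra K L]
    (E : IntermediateField K L) : Prop :=
  E ≠ ⊥ ∧ ∀ F : IntermediateField K L, F ≤ E → F = ⊥ ∨ F = E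

/-- `L` is the Galois closure of `E` over `K`. -/
def IsClosure {K L : Type} [Field K] [Field L] [Algebra K L]
    (E : IntermediateField K L) : Prop :=
  ∀ F : IntermediateField K L, E ≤ F → Normal K F → F = ⊤

end Pool.Agent.Results.MP_dadaab_nt.PrimitiveProductAction

open Pool.Agent.Results.MP_dadaab_nt.PrimitiveProductAction Pool.Agent.H96S.WP in
theorem Pool.Agent.Results.MP_dadaab_nt.PrimitiveProductAction.result :
    (∀ (G : Type) [Group G] [Finite G], ∃ n₀ : ℕ, ∀ n ≥ n₀, ∀ S : Finset ℕ,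
      ∃ (L : Type) (_ : Field L) (_ : NumberField L) (_ : IsGalois ℚ L)
        (e : Wr G n ≃* (L ≃ₐ[ℚ] L)) (E : Subgroup G → IntermediateField ℚ L),
        Local L S ∧ (∀ M, IsFixedField e M (E M)) ∧
        (∀ M, Module.finrank ℚ (E M) = M.index ^ n) ∧
        (∀ X X', E X ≤ E X' ↔ X' ≤ X) ∧
        (∀ H : Subgroup G,
          (∀ X X' : Subgroup G, H ≤ X → X < X' → ∃ g ∈ X', ∃ x ∈ X, g * x * g⁻¹ ∉ X) →
          ∀ F : IntermediateField ℚ L, F ≤ E H → ∃ X, H ≤ X ∧ F = E X) ∧
        (∀ M : Subgroup G, IsCoatom M → ¬ M.Normal → NoProperSubfields (E M)) ∧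
        (∀ M : Subgroup G, M ≠ ⊤ → M.normalCore = ⊥ → IsClosure (E M))) ∧
    (∀ (T : Type) [Group T] [Finite T] [IsSimpleGroup T], (∃ a b : T, a * b ≠ b * a) →
      ∃ m n₀ : ℕ, 1 < m ∧ ∀ n ≥ n₀, ∀ S : Finset ℕ,
      ∃ (L : Type) (_ : Field L) (_ : NumberField L) (_ : IsGalois ℚ L)
        (E : IntermediateField ℚ L), Nonempty (Wr T n ≃* (L ≃ₐ[ℚ] L)) ∧ Local L S ∧
        Module.finrank ℚ E = m ^ n ∧ NoProperSubfields E ∧ IsClosure E) := by
  have main : (∀ (G : Type) [Group G] [Finite G], ∃ n₀ : ℕ, ∀ n ≥ n₀, ∀ S : Finset ℕ,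
      ∃ (L : Type) (_ : Field L) (_ : NumberField L) (_ : IsGalois ℚ L)
        (e : Wr G n ≃* (L ≃ₐ[ℚ] L)) (E : Subgroup G → IntermediateField ℚ L),
        Local L S ∧ (∀ M, IsFixedField e M (E M)) ∧
        (∀ M, Module.finrank ℚ (E M) = M.index ^ n) ∧
        (∀ X X', E X ≤ E X' ↔ X' ≤ X) ∧
        (∀ H : Subgroup G,
          (∀ X X' : Subgroup G, H ≤ X → X < X' → ∃ g ∈ X', ∃ x ∈ X, g * x * g⁻¹ ∉ X) →
          ∀ F : IntermediateField ℚ L, F ≤ E H → ∃ X, H ≤ X ∧ F = E X) ∧
        (∀ M : Subgroup G, IsCoatom M → ¬ M.Normal → NoProperSubfields (E M)) ∧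
        (∀ M : Subgroup G, M ≠ ⊤ → M.normalCore = ⊥ → IsClosure (E M))) := by
    intro G _ _
    obtain ⟨n₀, hn₀⟩ := R1.wreath_local G
    refine ⟨n₀, fun n hn S => ?_⟩
    have h3 := (hn₀ n hn).1
    have hpos : 0 < n := by omega
    obtain ⟨L, i1, i2, i3, ⟨e⟩, h1, h2, h4⟩ := (hn₀ n hn).2 S
    have hsub : ∀ H : Subgroup G,
          (∀ X X' : Subgroup G, H ≤ X → X < X' → ¬ X' ≤ Subgroup.normalizer (X : Set G)) →
          ∀ F : IntermediateField ℚ L, F ≤ fld e (prodSub H n) →
            ∃ X, H ≤ X ∧ F = fld e (prodSub X n) := by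
      intro H hH F hF
      obtain ⟨Y, hY, rfl⟩ := exists_of_le_fld e _ F hF
      obtain ⟨X, hX, rfl⟩ := over_prodSub H hH Y hY
      exact ⟨X, hX, rfl⟩
    have hrefl : ∀ X X' : Subgroup G, fld e (prodSub X n) ≤ fld e (prodSub X' n) ↔ X' ≤ X := by
      intro X X'
      rw [fld_le_iff, prodSub_le_iff hpos]
    refine ⟨L, i1, i2, i3, e, fun M => fld e (prodSub M n), ⟨h1, h2, h4⟩, ?_, ?_, hrefl, ?_, ?_, ?_⟩
    · intro M x
      rw [mem_fld]
      exact Iff.rfl
    · intro M
      rw [finrank_fld, index_prodSub]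
    · intro H hH
      apply hsub H
      intro X X' hX hlt hle
      obtain ⟨g, hg, x, hx, hgx⟩ := hH X X' hX hlt
      exact hgx ((Subgroup.mem_normalizer_iff.1 (hle hg) x).1 hx)
    · intro M hM hnn
      refine ⟨?_, ?_⟩
      · intro h
        have h5 : fld e (prodSub M n) ≤ fld e (prodSub (⊤ : Subgroup G) n) := by
          rw [show fld e (prodSub M n) = ⊥ from h]; exact bot_le
        rw [hrefl] at h5
        exact hM.1 (top_le_iff.1 h5)
      · intro F hF
        obtain ⟨X, hX, rfl⟩ := hsub M (interval_of_coatom hM hnn) F hF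
        rcases eq_or_lt_of_le hX with h | h
        · right; rw [h]
        · left
          rw [hM.2 X h, prodSub_top, fld_top]
    · intro M hM hc F hF hN
      exact closure_fld e _ (fun N hN hle => core_prodSub hM hc N hN hle) F hF
  refine ⟨main, ?_⟩
  intro T _ _ _ hT
  obtain ⟨M, hM, hnn, hc⟩ := simple_coatom T hT
  obtain ⟨n₀, hn₀⟩ := main T
  have hidx : 1 < M.index := by
    have h0 : M.index ≠ 0 := Subgroup.FiniteIndex.index_ne_zero
    have h1 : M.index ≠ 1 := fun h => hM.1 (Subgroup.index_eq_one.1 h)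
    omega
  refine ⟨M.index, n₀, hidx, fun n hn S => ?_⟩
  obtain ⟨L, i1, i2, i3, e, E, h1, _, h3, _, _, h6, h7⟩ := hn₀ n hn S
  exact ⟨L, i1, i2, i3, E M, ⟨e⟩, h1, h3 M, h6 M hM hnn, h7 M hM.1 hc⟩
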