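import Mathlib
import Pool.Agent.H391R2.R1.Fin
import Pool.Agent.H96S.WP.Pt
import Pool.Agent.H96S.WP.Fld

/-!
# Every finite group over number fields of every large degree, with all subfields known

For every finite group `G` and every large `n` there are number fields `F ⊆ E`, totally real,
tamely ramified, with any given finite set of primes splitting completely, such that `F` has degree
`n`, `E / F` is Galois with group `G`, the only subfields of `E` are `ℚ` and the fields between
`F` and `E`, and the same holds for every intermediate field: the lattice of subfields of the fixed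
field of `H ≤ G` is the dual of the interval `[H, G]` with one point `ℚ` added below.
-/

set_option autoImplicit false

open NumberField Pool.Agent.H391R2

namespace Pool.Agent.Results.MP_dadaab_nt.SubfieldIntervals

/-- `L` is totally real, tamely ramified over `ℚ`, and all primes of `S` split completely. -/
def Local (L : Type) [Field L] [NumberField L] (S : Finset ℕ) : Prop :=
  IsTotallyReal L ∧
  (∀ p ∈ S, p.Prime →
    ((Ideal.span {(p : ℤ)}).primesOver (𝓞 L)).ncard = Module.finrank ℚ L) ∧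
  ∀ p : ℕ, p.Prime → ∀ P : Ideal (𝓞 L), P.IsPrime → (p : 𝓞 L) ∈ P → ¬ p ∣ P.ramificationIdx ℤ

/-- The fields `E X`, `X ≤ G`, have degree `n * [G : X]` and are ordered in reverse to the
subgroups; the subfields of `E H` are the base field and the `E X` with `H ≤ X`. -/
def DualIntervals {K L : Type} [Field K] [Field L] [Algebra K L] {G : Type} [Group G]
    (n : ℕ) (E : Subgroup G → IntermediateField K L) : Prop :=
  (∀ X, Module.finrank K (E X) = n * X.index) ∧
  (∀ X X', E X ≤ E X' ↔ X' ≤ X) ∧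
  ∀ (H : Subgroup G) (F : IntermediateField K L), F ≤ E H ↔ F = ⊥ ∨ ∃ X, H ≤ X ∧ F = E X

/-- `E'` contains `E`, and the extension `E' / E` is Galois with group `G`. -/
def GaloisWithGroup {K L : Type} [Field K] [Field L] [Algebra K L]
    (E E' : IntermediateField K L) (G : Type) [Group G] : Prop :=
  ∃ F : IntermediateField E L, (∀ x : L, x ∈ F ↔ x ∈ E') ∧ IsGalois E F ∧
    Nonempty (G ≃* (F ≃ₐ[E] F))

end Pool.Agent.Results.MP_dadaab_nt.SubfieldIntervals

open Pool.Agent.Results.MP_dadaab_nt.SubfieldIntervals Pool.Agent.H96S.WP in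
theorem Pool.Agent.Results.MP_dadaab_nt.SubfieldIntervals.result :
    ∀ (G : Type) [Group G] [Finite G], ∃ n₀ : ℕ, ∀ n ≥ n₀, ∀ S : Finset ℕ,
      ∃ (L : Type) (_ : Field L) (_ : NumberField L) (_ : IsGalois ℚ L)
        (E : Subgroup G → IntermediateField ℚ L),
        Nonempty (Wr G n ≃* (L ≃ₐ[ℚ] L)) ∧ Local L S ∧ DualIntervals n E ∧
        GaloisWithGroup (E ⊤) (E ⊥) G := by
  intro G _ _
  obtain ⟨n₀, hn₀⟩ := R1.wreath_local G
  refine ⟨n₀, fun n hn S => ?_⟩
  have h3 := (hn₀ n hn).1
  have hpos : 0 < n := by omega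
  obtain ⟨L, i1, i2, i3, ⟨e⟩, h1, h2, h4⟩ := (hn₀ n hn).2 S
  let a : Fin n := ⟨0, hpos⟩
  have hrefl : ∀ X X' : Subgroup G, fld e (ptSub a X) ≤ fld e (ptSub a X') ↔ X' ≤ X := by
    intro X X'
    rw [fld_le_iff, ptSub_le_iff]
  refine ⟨L, i1, i2, i3, fun X => fld e (ptSub a X), ⟨e⟩, ⟨h1, h2, h4⟩, ⟨?_, hrefl, ?_⟩, ?_⟩
  · intro X
    rw [finrank_fld, index_ptSub]
  · intro H F
    constructor
    · intro hF
      obtain ⟨Y, hY, rfl⟩ := exists_of_le_fld e _ F hF
      rcases over_ptSub a H Y hY with rfl | ⟨X, hX, rfl⟩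
      · left; rw [fld_top]
      · right; exact ⟨X, hX, rfl⟩
    · rintro (rfl | ⟨X, hX, rfl⟩)
      · exact bot_le
      · exact (hrefl X H).2 hX
  · obtain ⟨F', hF', h5, h6⟩ := quotient_fld e (ptSub a (⊤ : Subgroup G)) (ptHom a)
      (ptHom_surjective a)
    refine ⟨F', ?_, h5, h6⟩
    intro x
    change _ ↔ x ∈ fld e (ptSub a ⊥)
    rw [hF', mem_fld]
    constructor
    · rintro h w ⟨hw1, hw2⟩
      exact h ⟨w, hw1, Subgroup.mem_top _⟩ (Subgroup.mem_bot.1 hw2)
    · rintro h ⟨w, hw⟩ hu
      exact h w ⟨hw.1, Subgroup.mem_bot.2 hu⟩
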